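import Mathlib

set_option autoImplicit false

open Matrix

namespace Pool.Agent.Results.MP_104382_al.NotF

/-- The linear action of a real `2 × 2` matrix of determinant `1` on the plane, `v ↦ g v`. -/
def act (g : Matrix.SpecialLinearGroup (Fin 2) ℝ) (v : Fin 2 → ℝ) : Fin 2 → ℝ :=
  (g : Matrix (Fin 2) (Fin 2) ℝ).mulVec v

/-- The subset `E` of the plane is paradoxical for the group `H` of real `2 × 2` matrices of
determinant `1`, acting linearly. -/
def Paradoxical (H : Subgroup (Matrix.SpecialLinearGroup (Fin 2) ℝ)) (E : Set (Fin 2 → ℝ)) : Prop :=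
  ∃ (n m : ℕ) (A : Fin n → Set (Fin 2 → ℝ)) (B : Fin m → Set (Fin 2 → ℝ))
    (g : Fin n → Matrix.SpecialLinearGroup (Fin 2) ℝ) (h : Fin m → Matrix.SpecialLinearGroup (Fin 2) ℝ),
    0 < n ∧ 0 < m ∧ (∀ i, g i ∈ H) ∧ (∀ j, h j ∈ H) ∧
    (∀ i, A i ⊆ E) ∧ (∀ j, B j ⊆ E) ∧
    (∀ i j, i ≠ j → Disjoint (A i) (A j)) ∧
    (∀ i j, i ≠ j → Disjoint (B i) (B j)) ∧
    (∀ i j, Disjoint (A i) (B j)) ∧
    E = (⋃ i, act (g i) '' (A i)) ∧
    E = (⋃ j, act (h j) '' (B j))

/-- The matrix `a` with rows `(1, 2)` and `(0, 1)`. -/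
noncomputable def a : Matrix.SpecialLinearGroup (Fin 2) ℝ :=
  ⟨!![1, 2; 0, 1], by simp [Matrix.det_fin_two]⟩

/-- The matrix `b` with rows `(1, 0)` and `(2, 1)`. -/
noncomputable def b : Matrix.SpecialLinearGroup (Fin 2) ℝ :=
  ⟨!![1, 0; 2, 1], by simp [Matrix.det_fin_two]⟩

/-- The group `F` generated by `a` and `b`. -/
noncomputable def F : Subgroup (Matrix.SpecialLinearGroup (Fin 2) ℝ) := Subgroup.closure {a, b}

/-- The open unit square. -/
def Q : Set (Fin 2 → ℝ) := {v | 0 < v 0 ∧ v 0 < 1 ∧ 0 < v 1 ∧ v 1 < 1}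

/-- The centre of the square. -/
noncomputable def p : Fin 2 → ℝ := ![1/2, 1/2]

/-- Vectors whose two coordinates are halves of odd integers. -/
def OddHalf (v : Fin 2 → ℝ) : Prop := ∃ x y : ℤ, v 0 = x + 1/2 ∧ v 1 = y + 1/2

lemma act_mul (g h : Matrix.SpecialLinearGroup (Fin 2) ℝ) (v : Fin 2 → ℝ) :
    act (g * h) v = act g (act h v) :=
  (congrArg (fun M => Matrix.mulVec M v) (Matrix.SpecialLinearGroup.coe_mul g h)).trans
    (Matrix.mulVec_mulVec v _ _).symm

lemma act_one (v : Fin 2 → ℝ) : act 1 v = v := by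
  simp [act]

lemma act_a (v : Fin 2 → ℝ) : act a v = ![v 0 + 2 * v 1, v 1] := by
  funext i
  fin_cases i <;> simp [act, a, Matrix.mulVec, dotProduct, Fin.sum_univ_two]

lemma act_b (v : Fin 2 → ℝ) : act b v = ![v 0, 2 * v 0 + v 1] := by
  funext i
  fin_cases i <;> simp [act, b, Matrix.mulVec, dotProduct, Fin.sum_univ_two]

lemma act_inv_eq (g : Matrix.SpecialLinearGroup (Fin 2) ℝ) (v w : Fin 2 → ℝ)
    (h : act g v = w) : v = act g⁻¹ w := by
  rw [← h, ← act_mul, inv_mul_cancel, act_one]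

lemma act_inj (g : Matrix.SpecialLinearGroup (Fin 2) ℝ) (v w : Fin 2 → ℝ)
    (h : act g v = act g w) : v = w := by
  rw [act_inv_eq g v _ h, ← act_mul, inv_mul_cancel, act_one]

lemma act_a_inv (v : Fin 2 → ℝ) : act a⁻¹ v = ![v 0 - 2 * v 1, v 1] := by
  apply act_inj a
  rw [← act_mul, mul_inv_cancel, act_one, act_a]
  funext i
  fin_cases i <;> simp

lemma act_b_inv (v : Fin 2 → ℝ) : act b⁻¹ v = ![v 0, v 1 - 2 * v 0] := by
  apply act_inj b
  rw [← act_mul, mul_inv_cancel, act_one, act_b]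
  funext i
  fin_cases i <;> simp

lemma oddHalf_orbit (g : Matrix.SpecialLinearGroup (Fin 2) ℝ) (hg : g ∈ F) :
    ∀ v, OddHalf v → OddHalf (act g v) := by
  unfold F at hg
  induction hg using Subgroup.closure_induction_left with
  | one => intro v hv; rwa [act_one]
  | mul_left x hx y hy ih =>
    intro v hv
    rw [act_mul]
    obtain ⟨s, t, hs, ht⟩ := ih v hv
    rcases hx with rfl | rfl
    · refine ⟨s + 2 * t + 1, t, ?_, ?_⟩ <;> rw [act_a] <;> simp [hs, ht] <;> ring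
    · refine ⟨s, 2 * s + t + 1, ?_, ?_⟩ <;> rw [act_b] <;> simp [hs, ht] <;> ring
  | inv_mul_cancel x hx y hy ih =>
    intro v hv
    rw [act_mul]
    obtain ⟨s, t, hs, ht⟩ := ih v hv
    rcases hx with rfl | rfl
    · refine ⟨s - 2 * t - 1, t, ?_, ?_⟩ <;> rw [act_a_inv] <;> simp [hs, ht] <;> ring
    · refine ⟨s, t - 2 * s - 1, ?_, ?_⟩ <;> rw [act_b_inv] <;> simp [hs, ht] <;> ring

lemma oddHalf_mem_Q (v : Fin 2 → ℝ) (hv : OddHalf v) (hQ : v ∈ Q) : v = p := by
  obtain ⟨x, y, hx, hy⟩ := hv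
  obtain ⟨h1, h2, h3, h4⟩ := hQ
  rw [hx] at h1 h2
  rw [hy] at h3 h4
  have hx1 : x < 1 := by
    have : (x : ℝ) < 1 := by linarith
    exact_mod_cast this
  have hx2 : -1 < x := by
    have : (-1 : ℝ) < x := by linarith
    exact_mod_cast this
  have hy1 : y < 1 := by
    have : (y : ℝ) < 1 := by linarith
    exact_mod_cast this
  have hy2 : -1 < y := by
    have : (-1 : ℝ) < y := by linarith
    exact_mod_cast this
  have hx0 : x = 0 := by omega
  have hy0 : y = 0 := by omega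
  subst hx0 hy0
  funext i
  fin_cases i
  · simpa [p] using hx
  · simpa [p] using hy

lemma p_mem_Q : p ∈ Q := by
  refine ⟨?_, ?_, ?_, ?_⟩ <;> norm_num [p]

/-- Whenever a point of the square is moved to the centre by an element of `F`, it is the
centre. -/
lemma eq_p (g : Matrix.SpecialLinearGroup (Fin 2) ℝ) (hg : g ∈ F) (v : Fin 2 → ℝ) (hv : v ∈ Q)
    (h : act g v = p) : v = p := by
  apply oddHalf_mem_Q v _ hv
  rw [act_inv_eq g v p h]
  apply oddHalf_orbit _ (F.inv_mem hg)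
  exact ⟨0, 0, by simp [p], by simp [p]⟩

/-- The open unit square is not paradoxical for the group generated by `a` and `b`. -/
theorem result : ¬ Paradoxical F Q := by
  rintro ⟨n, m, A, B, g, h, -, -, hg, hh, hA, hB, -, -, hAB, hE, hE'⟩
  have h1 : p ∈ ⋃ i, act (g i) '' (A i) := hE ▸ p_mem_Q
  have h2 : p ∈ ⋃ j, act (h j) '' (B j) := hE' ▸ p_mem_Q
  obtain ⟨i, v, hvA, hv⟩ := Set.mem_iUnion.1 h1
  obtain ⟨j, w, hwB, hw⟩ := Set.mem_iUnion.1 h2
  have e1 : v = p := eq_p (g i) (hg i) v (hA i hvA) hv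
  have e2 : w = p := eq_p (h j) (hh j) w (hB j hwB) hw
  rw [e1] at hvA
  rw [e2] at hwB
  exact (Set.disjoint_left.1 (hAB i j)) hvA hwB

end Pool.Agent.Results.MP_104382_al.NotF
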